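import Pool.Agent.Helper19.FQ.IwaB
import Pool.Agent.Helper55.FQ.Defs

/-!
# Project FQ (MP_0f6f3f_an): `G = U L K` for the maximal parabolic subgroups, in the notation of the assembly

`iwa`: `g = x y k`, `x` contracted by `wn D u`, `y` commuting with it, `k ∈ K`. `iwa'`: the same for the sequence of inverses.
-/

set_option autoImplicit false

open Filter Topology Matrix

namespace Pool.Agent.Helper19.FQ

open Pool.Agent.Helper35.TZ (autC isAdj_autC)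
open Pool.Agent.Helper84.GDL (GD)
open Pool.Agent.Helper78.BM (Ctr)
open Pool.Agent.Helper66.FR (cen)
open Pool.Agent.Helper55.FQ (Gr wn)

variable {L : Type} [LieRing L] [LieAlgebra ℝ L] {N : ℕ} {r : ℕ} {θ : L ≃ₗ⁅ℝ⁆ L} {b : Module.Basis (Fin N) ℝ L} {A : Submodule ℝ L}
  {τ : Module.Dual ℝ A ≃ₗ[ℝ] A} {al : Fin r → Module.Dual ℝ A} {W : Fin r → A} {D : GD (autC b) (Fin r)}

theorem wn_inv19 (u : Fin r) (n : ℕ) : (wn D u n)⁻¹ = D.ea (Pi.single u (-(n : ℝ))) := by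
  unfold wn
  rw [Pi.single_neg, D.ea_neg]

theorem cen_wn19 {u : Fin r} {l : autC b} (hl : ∀ t : ℝ, l * D.ea (Pi.single u t) = D.ea (Pi.single u t) * l) : l ∈ cen (wn D u) := by
  rintro _ ⟨n, rfl⟩
  exact (hl n).symm

/-- `G = U L K` for the node `u`. -/
theorem iwa (G : Gr θ b A τ al W D) (u : Fin r) (g : autC b) : ∃ x ∈ Ctr (wn D u), ∃ y ∈ cen (wn D u), ∃ k ∈ D.K, g = x * y * k := by
  obtain ⟨x, l, k, hk, he, hx, hl⟩ := decR G.s.h G.s.hA (isAdj_autC b) G.ea u g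
  refine ⟨x, ?_, l, cen_wn19 hl, k, hk, he⟩
  have h1 : Tendsto (fun n : ℕ => D.ea (Pi.single u (n : ℝ)) * x * D.ea (Pi.single u (-(n : ℝ)))) (hyperfilter ℕ : Filter ℕ) (𝓝 1) :=
    (hx.comp tendsto_natCast_atTop_atTop).mono_left Nat.hyperfilter_le_atTop
  change Tendsto (fun n => wn D u n * x * (wn D u n)⁻¹) (hyperfilter ℕ : Filter ℕ) (𝓝 1)
  refine h1.congr fun n => ?_
  rw [wn_inv19]
  rfl

/-- `G = U⁻ L K` for the node `u`. -/
theorem iwa' (G : Gr θ b A τ al W D) (u : Fin r) (g : autC b) :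
    ∃ x ∈ Ctr (fun n => (wn D u n)⁻¹), ∃ y ∈ cen (wn D u), ∃ k ∈ D.K, g = x * y * k := by
  obtain ⟨x, l, k, hk, he, hx, hl⟩ := decL G.s.h G.s.hA (isAdj_autC b) G.ea u g
  refine ⟨x, ?_, l, cen_wn19 hl, k, hk, he⟩
  have h1 : Tendsto (fun n : ℕ => D.ea (Pi.single u (-(n : ℝ))) * x * D.ea (Pi.single u (n : ℝ))) (hyperfilter ℕ : Filter ℕ) (𝓝 1) :=
    (hx.comp tendsto_natCast_atTop_atTop).mono_left Nat.hyperfilter_le_atTop
  change Tendsto (fun n => (wn D u n)⁻¹ * x * ((wn D u n)⁻¹)⁻¹) (hyperfilter ℕ : Filter ℕ) (𝓝 1)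
  refine h1.congr fun n => ?_
  rw [inv_inv, wn_inv19]
  rfl

end Pool.Agent.Helper19.FQ
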