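import Pool.Agent.Helper84.GD.Basic

/-!
# Project FQ (MP_0f6f3f_an): towards `G = P K` for the maximal parabolic subgroups

`exists_row`: row `0` of `rho u g` is proportional to row `0` of `rho u k` for some `k ∈ K` (limit of the Cartan decompositions of `exp(n W u) g`); `exists_col`: the same for column `0`.
`cell_hyp`, `cell_lin`: the big cell decomposition `x l y` of an element which fixes the base hyperplane (line) of the node `u`: the conjugates of `y` (of `x`) are bounded.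
-/

set_option autoImplicit false

open Filter Topology Matrix

namespace Pool.Agent.Helper19.FQ

open Pool.Agent.Helper84.GDL (GD)

/-- Convergence of matrices by the entries. -/
theorem tend_mat19 {α m n : Type} {U : Filter α} {A : α → Matrix m n ℝ} {A0 : Matrix m n ℝ} (h : ∀ i j, Tendsto (fun t => A t i j) U (𝓝 (A0 i j))) :
    Tendsto A U (𝓝 A0) :=
  tendsto_pi_nhds.2 fun i => tendsto_pi_nhds.2 fun j => h i j

section Core

variable {d : ℕ} {U : Filter ℕ} {A Q : ℕ → Matrix (Fin (d + 1)) (Fin (d + 1)) ℝ} {A0 : Matrix (Fin (d + 1)) (Fin (d + 1)) ℝ}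
  {v : Fin (d + 1) → ℝ} {σ : ℕ → Fin (d + 1) → ℝ}

/-- The limit of the diagonalisations of matrices tending to `v vᵀ`. -/
theorem core19 [U.NeBot] (hA : Tendsto A U (𝓝 A0)) (ho : ∀ n, (A n)ᵀ * A n = 1) (hv : v ≠ 0)
    (hQ : Tendsto Q U (𝓝 (vecMulVec v v))) (h1 : ∀ n, A n * Q n * (A n)ᵀ = diagonal (σ n)) (h2 : ∀ n i, σ n i ≤ σ n 0) :
    ∃ c : ℝ, c ≠ 0 ∧ ∀ i, v i = c * A0 0 i := by
  have hAT : Tendsto (fun n => (A n)ᵀ) U (𝓝 A0ᵀ) := (continuous_id.matrix_transpose.tendsto A0).comp hA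
  have ho0 : A0ᵀ * A0 = 1 := by
    have h3 : Tendsto (fun n => (A n)ᵀ * A n) U (𝓝 (A0ᵀ * A0)) := hAT.mul hA
    have h4 : Tendsto (fun n => (A n)ᵀ * A n) U (𝓝 1) := by
      simp only [ho]
      exact tendsto_const_nhds
    exact tendsto_nhds_unique h3 h4
  obtain ⟨w, hw⟩ : ∃ w, w = A0 *ᵥ v := ⟨_, rfl⟩
  have hlim : Tendsto (fun n => diagonal (σ n)) U (𝓝 (vecMulVec w w)) := by
    have h3 : Tendsto (fun n => A n * Q n * (A n)ᵀ) U (𝓝 (A0 * vecMulVec v v * A0ᵀ)) := (hA.mul hQ).mul hAT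
    have e : A0 * vecMulVec v v * A0ᵀ = vecMulVec w w := by
      rw [hw, mul_vecMulVec, vecMulVec_mul, vecMul_transpose]
    rw [e] at h3
    simp only [h1] at h3
    exact h3
  have hent : ∀ i j, Tendsto (fun n => diagonal (σ n) i j) U (𝓝 (w i * w j)) := by
    intro i j
    have h3 := ((continuous_id.matrix_elem i j).tendsto (vecMulVec w w)).comp hlim
    simpa [vecMulVec_apply, Function.comp_def] using h3
  have hoff : ∀ i j, i ≠ j → w i * w j = 0 := by
    intro i j hij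
    have h3 := hent i j
    simp only [diagonal_apply_ne _ hij] at h3
    exact tendsto_nhds_unique h3 tendsto_const_nhds
  have hdi : ∀ i, w i * w i ≤ w 0 * w 0 := by
    intro i
    have h3 := hent i i
    have h4 := hent 0 0
    simp only [diagonal_apply_eq] at h3 h4
    exact le_of_tendsto_of_tendsto' h3 h4 fun n => h2 n i
  have hw0 : w 0 ≠ 0 := by
    intro h0
    have h3 : w = 0 := by
      funext i
      have h4 := hdi i
      rw [h0, mul_zero] at h4
      have h5 : w i * w i = 0 := le_antisymm h4 (mul_self_nonneg _)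
      exact mul_self_eq_zero.1 h5
    apply hv
    have h4 : A0ᵀ *ᵥ w = v := by rw [hw, mulVec_mulVec, ho0, one_mulVec]
    rw [← h4, h3, mulVec_zero]
  refine ⟨w 0, hw0, fun i => ?_⟩
  have h4 : v = A0ᵀ *ᵥ w := by rw [hw, mulVec_mulVec, ho0, one_mulVec]
  rw [h4]
  change ∑ j, A0ᵀ i j * w j = _
  rw [Finset.sum_eq_single 0]
  · rw [transpose_apply, mul_comm]
  · intro j _ hj
    have h5 : w j = 0 := by
      have h6 := hoff 0 j (Ne.symm hj)
      exact (mul_eq_zero.1 h6).resolve_left hw0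
    rw [h5, mul_zero]
  · intro h5
    exact absurd (Finset.mem_univ _) h5

end Core

section GDs

variable {𝔾 : Type} [Group 𝔾] [TopologicalSpace 𝔾] {ι : Type} [Fintype ι] [DecidableEq ι] (D : GD 𝔾 ι)

theorem orth_mul19 (l : ι) {k : 𝔾} (hk : k ∈ D.K) : D.rho l k * (D.rho l k)ᵀ = 1 :=
  mul_eq_one_comm.1 (D.orth l k hk)

theorem rho_inv_mul19 (l : ι) (g : 𝔾) : D.rho l g⁻¹ * D.rho l g = 1 := by
  rw [← map_mul, inv_mul_cancel, map_one]

theorem rho_mul_inv19 (l : ι) (g : 𝔾) : D.rho l g * D.rho l g⁻¹ = 1 := by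
  rw [← map_mul, mul_inv_cancel, map_one]

theorem row_ne19 (l : ι) (g : 𝔾) : (fun i => D.rho l g 0 i) ≠ 0 := by
  intro h0
  have h1 := congrFun (congrFun (rho_mul_inv19 D l g) 0) 0
  rw [Matrix.mul_apply, Matrix.one_apply_eq] at h1
  have h2 : ∀ j, D.rho l g 0 j = 0 := fun j => congrFun h0 j
  simp only [h2, zero_mul, Finset.sum_const_zero] at h1
  exact zero_ne_one h1

theorem col_ne19 (l : ι) (g : 𝔾) : (fun i => D.rho l g i 0) ≠ 0 := by
  intro h0
  have h1 := congrFun (congrFun (rho_inv_mul19 D l g) 0) 0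
  rw [Matrix.mul_apply, Matrix.one_apply_eq] at h1
  have h2 : ∀ j, D.rho l g j 0 = 0 := fun j => congrFun h0 j
  simp only [h2, mul_zero, Finset.sum_const_zero] at h1
  exact zero_ne_one h1

theorem rho_single19 (u : ι) (t : ℝ) : D.rho u (D.ea (Pi.single u t)) = diagonal fun i => Real.exp ((D.top u u - D.n u i u) * t) := by
  rw [D.rho_ea]
  congr 1
  funext i
  congr 1
  rw [Finset.sum_eq_single u]
  · rw [Pi.single_eq_same]
  · intro j _ hj
    rw [Pi.single_eq_of_ne hj, mul_zero]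
  · intro h
    exact absurd (Finset.mem_univ _) h

/-- The squares of the singular values. -/
theorem sv_le19 (u : ι) (c : ι → ℝ) (hc : ∀ j, 0 ≤ c j) (i : Fin (D.d u + 1)) :
    Real.exp (∑ j, (D.top u j - D.n u i j) * c j) ≤ Real.exp (∑ j, (D.top u j - D.n u 0 j) * c j) := by
  refine Real.exp_le_exp.2 (Finset.sum_le_sum fun j _ => mul_le_mul_of_nonneg_right ?_ (hc j))
  rw [D.n_zero, Nat.cast_zero]
  have : (0 : ℝ) ≤ D.n u i j := Nat.cast_nonneg _
  linarith

theorem tend_exp19 (u : ι) (i : Fin (D.d u + 1)) : Tendsto (fun n : ℕ => Real.exp (-(D.n u i u : ℝ) * n)) (hyperfilter ℕ : Filter ℕ)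
    (𝓝 (if i = 0 then 1 else 0)) := by
  by_cases hi : i = 0
  · subst hi
    simp only [D.n_zero, Nat.cast_zero, neg_zero, zero_mul, Real.exp_zero, if_true]
    exact tendsto_const_nhds
  · rw [if_neg hi]
    have h1 : Tendsto (fun n : ℕ => Real.exp (-(D.n u i u : ℝ) * n)) atTop (𝓝 0) := by
      have h2 : (0 : ℝ) < D.n u i u := by
        have := D.n_pos u i hi
        exact_mod_cast this
      have h3 : Tendsto (fun n : ℕ => (D.n u i u : ℝ) * n) atTop atTop :=
        tendsto_natCast_atTop_atTop.const_mul_atTop h2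
      have h4 := Real.tendsto_exp_neg_atTop_nhds_zero.comp h3
      refine h4.congr fun n => ?_
      simp only [Function.comp_apply, neg_mul]
    exact h1.mono_left Nat.hyperfilter_le_atTop

/-- Row `0` of `rho u g` is proportional to row `0` of `rho u k` for some `k ∈ K`. -/
theorem exists_row (u : ι) (g : 𝔾) : ∃ k ∈ D.K, ∃ c : ℝ, c ≠ 0 ∧ ∀ i, D.rho u g 0 i = c * D.rho u k 0 i := by
  obtain ⟨h, hh⟩ : ∃ h : ℕ → 𝔾, h = fun n : ℕ => D.ea (Pi.single u (n : ℝ)) * g := ⟨_, rfl⟩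
  obtain ⟨k, hk, hlim⟩ := D.cpt.ultrafilter_le_nhds ((hyperfilter ℕ).map fun n => D.kR (h n))
    (by
      rw [Filter.le_principal_iff, Ultrafilter.mem_coe, Ultrafilter.mem_map]
      exact Filter.univ_mem' fun n => D.kR_mem _)
  have hlim' : Tendsto (fun n => D.kR (h n)) (hyperfilter ℕ : Filter ℕ) (𝓝 k) := by
    rw [Ultrafilter.coe_map] at hlim
    exact hlim
  refine ⟨k, hk, ?_⟩
  obtain ⟨s, hs⟩ : ∃ s : ℕ → ℝ, s = fun n : ℕ => Real.exp (-(D.top u u) * n) := ⟨_, rfl⟩
  refine core19 (U := (hyperfilter ℕ : Filter ℕ)) (A := fun n => D.rho u (D.kR (h n))) (A0 := D.rho u k)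
    (Q := fun n => (s n • D.rho u (h n))ᵀ * (s n • D.rho u (h n)))
    (σ := fun n i => (s n * Real.exp (∑ j, (D.top u j - D.n u i j) * D.mu (h n) j)) ^ 2)
    (((D.rho_cont u).tendsto k).comp hlim') (fun n => D.orth u _ (D.kR_mem _)) (row_ne19 D u g) ?_ ?_ ?_
  · have h1 : Tendsto (fun n => s n • D.rho u (h n)) (hyperfilter ℕ : Filter ℕ) (𝓝 (vecMulVec (fun i => if i = 0 then (1 : ℝ) else 0) (fun i => D.rho u g 0 i))) := by
      refine tend_mat19 fun i j => ?_
      have h2 : ∀ n, (s n • D.rho u (h n)) i j = Real.exp (-(D.n u i u : ℝ) * n) * D.rho u g i j := by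
        intro n
        rw [hs, hh, Matrix.smul_apply, map_mul, rho_single19, diagonal_mul, smul_eq_mul, ← mul_assoc, ← Real.exp_add]
        congr 2
        ring
      simp only [h2]
      have h3 := (tend_exp19 D u i).mul_const (D.rho u g i j)
      rw [vecMulVec_apply]
      by_cases hi : i = 0
      · subst hi
        exact h3
      · rw [if_neg hi, zero_mul] at h3 ⊢
        exact h3
    have h4 : Tendsto (fun n => (s n • D.rho u (h n))ᵀ * (s n • D.rho u (h n))) (hyperfilter ℕ : Filter ℕ)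
        (𝓝 ((vecMulVec (fun i => if i = 0 then (1 : ℝ) else 0) (fun i => D.rho u g 0 i))ᵀ *
          (vecMulVec (fun i => if i = 0 then (1 : ℝ) else 0) (fun i => D.rho u g 0 i)))) :=
      (((continuous_id.matrix_transpose).tendsto _).comp h1).mul h1
    have e : (vecMulVec (fun i => if i = 0 then (1 : ℝ) else 0) (fun i => D.rho u g 0 i))ᵀ *
          (vecMulVec (fun i => if i = 0 then (1 : ℝ) else 0) (fun i => D.rho u g 0 i)) = vecMulVec (fun i => D.rho u g 0 i) (fun i => D.rho u g 0 i) := by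
      ext i j
      rw [Matrix.mul_apply, vecMulVec_apply]
      simp [vecMulVec_apply]
    rw [e] at h4
    exact h4
  · intro n
    have e1 : D.rho u (h n) = D.rho u (D.kL (h n)) * (diagonal fun i => Real.exp (∑ j, (D.top u j - D.n u i j) * D.mu (h n) j)) * D.rho u (D.kR (h n)) := by
      conv_lhs => rw [D.kak (h n)]
      rw [map_mul, map_mul, D.rho_ea]
    obtain ⟨P, hP⟩ : ∃ P, P = D.rho u (D.kL (h n)) := ⟨_, rfl⟩
    obtain ⟨R, hR⟩ : ∃ R, R = D.rho u (D.kR (h n)) := ⟨_, rfl⟩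
    have hPo : Pᵀ * P = 1 := by rw [hP]; exact D.orth u _ (D.kL_mem _)
    have hRo : R * Rᵀ = 1 := by rw [hR]; exact orth_mul19 D u (D.kR_mem _)
    rw [e1, ← hP, ← hR]
    obtain ⟨δ, hδ⟩ : ∃ δ : Fin (D.d u + 1) → ℝ, δ = fun i => Real.exp (∑ j, (D.top u j - D.n u i j) * D.mu (h n) j) := ⟨_, rfl⟩
    rw [← hδ]
    have e2 : R * ((s n • (P * diagonal δ * R))ᵀ * (s n • (P * diagonal δ * R))) * Rᵀ = (s n * s n) • ((R * Rᵀ) * diagonal δ * (Pᵀ * P) * diagonal δ * (R * Rᵀ)) := by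
      simp only [transpose_smul, transpose_mul, diagonal_transpose, Matrix.smul_mul, Matrix.mul_smul, smul_smul, Matrix.mul_assoc]
    rw [e2, hPo, hRo, Matrix.one_mul, Matrix.mul_one, Matrix.mul_one, diagonal_mul_diagonal]
    ext i j
    rw [Matrix.smul_apply, diagonal_apply, diagonal_apply]
    by_cases hij : i = j
    · rw [if_pos hij, if_pos hij, smul_eq_mul]
      rw [show δ i = Real.exp (∑ j, (D.top u j - D.n u i j) * D.mu (h n) j) from by rw [hδ]]
      ring
    · rw [if_neg hij, if_neg hij, smul_zero]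
  · intro n i
    have h1 := sv_le19 D u (D.mu (h n)) (D.mu_nonneg _) i
    have h2 : 0 ≤ s n := by rw [hs]; exact (Real.exp_pos _).le
    have h3 : 0 ≤ Real.exp (∑ j, (D.top u j - D.n u i j) * D.mu (h n) j) := (Real.exp_pos _).le
    exact pow_le_pow_left₀ (mul_nonneg h2 h3) (mul_le_mul_of_nonneg_left h1 h2) 2

/-- Column `0` of `rho u g` is proportional to column `0` of `rho u k` for some `k ∈ K`. -/
theorem exists_col (u : ι) (g : 𝔾) : ∃ k ∈ D.K, ∃ c : ℝ, c ≠ 0 ∧ ∀ i, D.rho u g i 0 = c * D.rho u k i 0 := by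
  obtain ⟨h, hh⟩ : ∃ h : ℕ → 𝔾, h = fun n : ℕ => g * D.ea (Pi.single u (n : ℝ)) := ⟨_, rfl⟩
  obtain ⟨k, hk, hlim⟩ := D.cpt.ultrafilter_le_nhds ((hyperfilter ℕ).map fun n => D.kL (h n))
    (by
      rw [Filter.le_principal_iff, Ultrafilter.mem_coe, Ultrafilter.mem_map]
      exact Filter.univ_mem' fun n => D.kL_mem _)
  have hlim' : Tendsto (fun n => D.kL (h n)) (hyperfilter ℕ : Filter ℕ) (𝓝 k) := by
    rw [Ultrafilter.coe_map] at hlim
    exact hlim
  refine ⟨k, hk, ?_⟩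
  obtain ⟨s, hs⟩ : ∃ s : ℕ → ℝ, s = fun n : ℕ => Real.exp (-(D.top u u) * n) := ⟨_, rfl⟩
  have key := core19 (U := (hyperfilter ℕ : Filter ℕ)) (A := fun n => (D.rho u (D.kL (h n)))ᵀ) (A0 := (D.rho u k)ᵀ)
    (v := fun i => D.rho u g i 0)
    (Q := fun n => (s n • D.rho u (h n)) * (s n • D.rho u (h n))ᵀ)
    (σ := fun n i => (s n * Real.exp (∑ j, (D.top u j - D.n u i j) * D.mu (h n) j)) ^ 2)
    (((continuous_id.matrix_transpose).tendsto _).comp (((D.rho_cont u).tendsto k).comp hlim'))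
    (fun n => by rw [transpose_transpose]; exact orth_mul19 D u (D.kL_mem _)) (col_ne19 D u g) ?_ ?_ ?_
  · obtain ⟨c, hc, h1⟩ := key
    exact ⟨c, hc, fun i => h1 i⟩
  · have h1 : Tendsto (fun n => s n • D.rho u (h n)) (hyperfilter ℕ : Filter ℕ) (𝓝 (vecMulVec (fun i => D.rho u g i 0) (fun i => if i = 0 then (1 : ℝ) else 0))) := by
      refine tend_mat19 fun i j => ?_
      have h2 : ∀ n, (s n • D.rho u (h n)) i j = D.rho u g i j * Real.exp (-(D.n u j u : ℝ) * n) := by
        intro n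
        rw [hs, hh, Matrix.smul_apply, map_mul, rho_single19, mul_diagonal, smul_eq_mul, mul_left_comm, ← Real.exp_add]
        congr 2
        ring
      simp only [h2]
      have h3 := (tend_exp19 D u j).const_mul (D.rho u g i j)
      rw [vecMulVec_apply]
      by_cases hj : j = 0
      · subst hj
        exact h3
      · rw [if_neg hj, mul_zero] at h3 ⊢
        exact h3
    have h4 : Tendsto (fun n => (s n • D.rho u (h n)) * (s n • D.rho u (h n))ᵀ) (hyperfilter ℕ : Filter ℕ)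
        (𝓝 ((vecMulVec (fun i => D.rho u g i 0) (fun i => if i = 0 then (1 : ℝ) else 0)) *
          (vecMulVec (fun i => D.rho u g i 0) (fun i => if i = 0 then (1 : ℝ) else 0))ᵀ)) :=
      h1.mul (((continuous_id.matrix_transpose).tendsto _).comp h1)
    have e : (vecMulVec (fun i => D.rho u g i 0) (fun i => if i = 0 then (1 : ℝ) else 0)) *
          (vecMulVec (fun i => D.rho u g i 0) (fun i => if i = 0 then (1 : ℝ) else 0))ᵀ = vecMulVec (fun i => D.rho u g i 0) (fun i => D.rho u g i 0) := by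
      ext i j
      rw [Matrix.mul_apply, vecMulVec_apply]
      simp [vecMulVec_apply]
    rw [e] at h4
    exact h4
  · intro n
    have e1 : D.rho u (h n) = D.rho u (D.kL (h n)) * (diagonal fun i => Real.exp (∑ j, (D.top u j - D.n u i j) * D.mu (h n) j)) * D.rho u (D.kR (h n)) := by
      conv_lhs => rw [D.kak (h n)]
      rw [map_mul, map_mul, D.rho_ea]
    obtain ⟨P, hP⟩ : ∃ P, P = D.rho u (D.kL (h n)) := ⟨_, rfl⟩
    obtain ⟨R, hR⟩ : ∃ R, R = D.rho u (D.kR (h n)) := ⟨_, rfl⟩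
    have hPo : Pᵀ * P = 1 := by rw [hP]; exact D.orth u _ (D.kL_mem _)
    have hRo : R * Rᵀ = 1 := by rw [hR]; exact orth_mul19 D u (D.kR_mem _)
    rw [e1, ← hP, ← hR]
    obtain ⟨δ, hδ⟩ : ∃ δ : Fin (D.d u + 1) → ℝ, δ = fun i => Real.exp (∑ j, (D.top u j - D.n u i j) * D.mu (h n) j) := ⟨_, rfl⟩
    rw [← hδ]
    have e2 : Pᵀ * ((s n • (P * diagonal δ * R)) * (s n • (P * diagonal δ * R))ᵀ) * Pᵀᵀ = (s n * s n) • ((Pᵀ * P) * diagonal δ * (R * Rᵀ) * diagonal δ * (Pᵀ * P)) := by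
      simp only [transpose_smul, transpose_mul, diagonal_transpose, Matrix.smul_mul, Matrix.mul_smul, smul_smul, Matrix.mul_assoc, transpose_transpose]
    rw [e2, hPo, hRo, Matrix.one_mul, Matrix.mul_one, Matrix.mul_one, diagonal_mul_diagonal]
    ext i j
    rw [Matrix.smul_apply, diagonal_apply, diagonal_apply]
    by_cases hij : i = j
    · rw [if_pos hij, if_pos hij, smul_eq_mul]
      rw [show δ i = Real.exp (∑ j, (D.top u j - D.n u i j) * D.mu (h n) j) from by rw [hδ]]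
      ring
    · rw [if_neg hij, if_neg hij, smul_zero]
  · intro n i
    have h1 := sv_le19 D u (D.mu (h n)) (D.mu_nonneg _) i
    have h2 : 0 ≤ s n := by rw [hs]; exact (Real.exp_pos _).le
    have h3 : 0 ≤ Real.exp (∑ j, (D.top u j - D.n u i j) * D.mu (h n) j) := (Real.exp_pos _).le
    exact pow_le_pow_left₀ (mul_nonneg h2 h3) (mul_le_mul_of_nonneg_left h1 h2) 2

theorem conj_entry19 (u : ι) (x : 𝔾) (s : ℝ) (i j : Fin (D.d u + 1)) :
    D.rho u (D.ea (Pi.single u s) * x * D.ea (Pi.single u (-s))) i j = Real.exp (((D.n u j u : ℝ) - D.n u i u) * s) * D.rho u x i j := by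
  rw [map_mul, map_mul, rho_single19, rho_single19, mul_diagonal, diagonal_mul, mul_right_comm, ← Real.exp_add]
  congr 2
  ring

theorem conj_entry19' (u : ι) (x : 𝔾) (s : ℝ) (i j : Fin (D.d u + 1)) :
    D.rho u (D.ea (Pi.single u (-s)) * x * D.ea (Pi.single u s)) i j = Real.exp (((D.n u i u : ℝ) - D.n u j u) * s) * D.rho u x i j := by
  have h := conj_entry19 D u x (-s) i j
  rw [neg_neg] at h
  rw [h]
  congr 2
  ring

theorem exp_entry19 {n : ℕ} {c : ℝ} (h : Tendsto (fun t : ℝ => Real.exp ((n : ℝ) * t) * c) atTop (𝓝 0)) : c = 0 := by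
  have h1 : Tendsto (fun t : ℝ => |Real.exp ((n : ℝ) * t) * c|) atTop (𝓝 0) := by
    have := h.abs
    rwa [abs_zero] at this
  have h2 : |c| ≤ 0 := by
    refine le_of_tendsto_of_tendsto (tendsto_const_nhds (x := |c|)) h1 ?_
    filter_upwards [eventually_ge_atTop (0 : ℝ)] with t ht
    rw [abs_mul, Real.abs_exp]
    have h3 : (1 : ℝ) ≤ Real.exp ((n : ℝ) * t) := Real.one_le_exp (mul_nonneg (Nat.cast_nonneg _) ht)
    have h4 := abs_nonneg c
    nlinarith
  exact abs_eq_zero.1 (le_antisymm h2 (abs_nonneg c))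

theorem entry_tend19 (u : ι) {f : ℝ → 𝔾} (hf : Tendsto f atTop (𝓝 1)) {i j : Fin (D.d u + 1)} (hij : i ≠ j) :
    Tendsto (fun t => D.rho u (f t) i j) atTop (𝓝 0) := by
  have h1 : Continuous fun g : 𝔾 => D.rho u g i j := (D.rho_cont u).matrix_elem i j
  have h2 := (h1.tendsto 1).comp hf
  rw [map_one, one_apply_ne hij] at h2
  exact h2

theorem lev_entry19 (u : ι) {l : 𝔾} (hl : ∀ t : ℝ, l * D.ea (Pi.single u t) = D.ea (Pi.single u t) * l) {i : Fin (D.d u + 1)} (hi : i ≠ 0) :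
    D.rho u l 0 i = 0 ∧ D.rho u l i 0 = 0 := by
  have h1 := congrArg (D.rho u) (hl 1)
  rw [map_mul, map_mul, rho_single19] at h1
  have h2 := congrFun (congrFun h1 0) i
  have h3 := congrFun (congrFun h1 i) 0
  rw [mul_diagonal, diagonal_mul] at h2 h3
  have h4 : Real.exp ((D.top u u - D.n u i u) * 1) < Real.exp ((D.top u u - D.n u 0 u) * 1) := by
    refine Real.exp_lt_exp.2 ?_
    rw [D.n_zero, Nat.cast_zero]
    have h5 : (1 : ℝ) ≤ D.n u i u := by exact_mod_cast D.n_pos u i hi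
    linarith
  constructor
  · have h5 : D.rho u l 0 i * (Real.exp ((D.top u u - D.n u 0 u) * 1) - Real.exp ((D.top u u - D.n u i u) * 1)) = 0 := by linarith
    exact (mul_eq_zero.1 h5).resolve_right (by linarith)
  · have h5 : D.rho u l i 0 * (Real.exp ((D.top u u - D.n u 0 u) * 1) - Real.exp ((D.top u u - D.n u i u) * 1)) = 0 := by linarith
    exact (mul_eq_zero.1 h5).resolve_right (by linarith)

/-- The big cell decomposition of an element which fixes the base hyperplane of the node `u`. -/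
theorem cell_hyp (u : ι) (p : 𝔾) (hp : ∀ i, i ≠ 0 → D.rho u p 0 i = 0) : ∃ x l y : 𝔾, p = x * l * y ∧
    Tendsto (fun t : ℝ => D.ea (Pi.single u t) * x * D.ea (Pi.single u (-t))) atTop (𝓝 1) ∧
    (∀ t : ℝ, l * D.ea (Pi.single u t) = D.ea (Pi.single u t) * l) ∧
    Tendsto (fun t : ℝ => D.ea (Pi.single u (-t)) * y * D.ea (Pi.single u t)) atTop (𝓝 1) ∧
    ∃ B : Set 𝔾, IsCompact B ∧ ∀ t : ℝ, 0 ≤ t → D.ea (Pi.single u t) * y * D.ea (Pi.single u (-t)) ∈ B := by
  have h0 : D.rho u p 0 0 ≠ 0 := by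
    intro h
    apply row_ne19 D u p
    funext i
    by_cases hi : i = 0
    · rw [hi]; exact h
    · exact hp i hi
  obtain ⟨B', -, h1⟩ := D.cell u |D.rho u p 0 0| (abs_pos.2 h0) {p} isCompact_singleton
  obtain ⟨x, -, l, -, y, -, he, hx, hl, hy⟩ := h1 p rfl le_rfl
  refine ⟨x, l, y, he, hx, hl, hy, ?_⟩
  have hx0 : ∀ j, j ≠ 0 → D.rho u x 0 j = 0 := by
    intro j hj
    have h2 := entry_tend19 D u hx (i := 0) (j := j) (Ne.symm hj)
    simp only [conj_entry19, D.n_zero, Nat.cast_zero, sub_zero] at h2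
    exact exp_entry19 h2
  have hxl : ∀ j, D.rho u p 0 j = D.rho u x 0 0 * D.rho u l 0 0 * D.rho u y 0 j := by
    intro j
    rw [he, map_mul, Matrix.mul_apply, Finset.sum_eq_single 0]
    · rw [map_mul, Matrix.mul_apply, Finset.sum_eq_single 0]
      · intro k _ hk
        rw [hx0 k hk, zero_mul]
      · intro h5
        exact absurd (Finset.mem_univ _) h5
    · intro m _ hm
      rw [map_mul, Matrix.mul_apply, Finset.sum_eq_zero, zero_mul]
      intro k _
      by_cases hk : k = 0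
      · rw [hk, (lev_entry19 D u hl hm).1, mul_zero]
      · rw [hx0 k hk, zero_mul]
    · intro h5
      exact absurd (Finset.mem_univ _) h5
  have hc : D.rho u x 0 0 * D.rho u l 0 0 ≠ 0 := by
    intro h
    apply h0
    rw [hxl 0, h, zero_mul]
  have hy0 : ∀ j, j ≠ 0 → D.rho u y 0 j = 0 := by
    intro j hj
    have h2 := hxl j
    rw [hp j hj] at h2
    exact (mul_eq_zero.1 h2.symm).resolve_left hc
  obtain ⟨B, hB, h2⟩ := D.par' u {y} isCompact_singleton
  exact ⟨B, hB, fun t ht => h2 y rfl hy0 t ht⟩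

/-- The big cell decomposition of an element which fixes the base line of the node `u`. -/
theorem cell_lin (u : ι) (p : 𝔾) (hp : ∀ i, i ≠ 0 → D.rho u p i 0 = 0) : ∃ x l y : 𝔾, p = x * l * y ∧
    Tendsto (fun t : ℝ => D.ea (Pi.single u t) * x * D.ea (Pi.single u (-t))) atTop (𝓝 1) ∧
    (∀ t : ℝ, l * D.ea (Pi.single u t) = D.ea (Pi.single u t) * l) ∧
    Tendsto (fun t : ℝ => D.ea (Pi.single u (-t)) * y * D.ea (Pi.single u t)) atTop (𝓝 1) ∧
    ∃ B : Set 𝔾, IsCompact B ∧ ∀ t : ℝ, 0 ≤ t → D.ea (Pi.single u (-t)) * x * D.ea (Pi.single u t) ∈ B := by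
  have h0 : D.rho u p 0 0 ≠ 0 := by
    intro h
    apply col_ne19 D u p
    funext i
    by_cases hi : i = 0
    · rw [hi]; exact h
    · exact hp i hi
  obtain ⟨B', -, h1⟩ := D.cell u |D.rho u p 0 0| (abs_pos.2 h0) {p} isCompact_singleton
  obtain ⟨x, -, l, -, y, -, he, hx, hl, hy⟩ := h1 p rfl le_rfl
  refine ⟨x, l, y, he, hx, hl, hy, ?_⟩
  have hy0 : ∀ j, j ≠ 0 → D.rho u y j 0 = 0 := by
    intro j hj
    have h2 := entry_tend19 D u hy (i := j) (j := 0) hj
    simp only [conj_entry19', D.n_zero, Nat.cast_zero, sub_zero] at h2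
    exact exp_entry19 h2
  have hly : ∀ j, D.rho u (l * y) j 0 = if j = 0 then D.rho u l 0 0 * D.rho u y 0 0 else 0 := by
    intro j
    rw [map_mul, Matrix.mul_apply, Finset.sum_eq_single 0]
    · by_cases hj : j = 0
      · rw [if_pos hj, hj]
      · rw [if_neg hj, (lev_entry19 D u hl hj).2, zero_mul]
    · intro k _ hk
      rw [hy0 k hk, mul_zero]
    · intro h5
      exact absurd (Finset.mem_univ _) h5
  have hxl : ∀ j, D.rho u p j 0 = D.rho u x j 0 * (D.rho u l 0 0 * D.rho u y 0 0) := by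
    intro j
    rw [he, mul_assoc, map_mul, Matrix.mul_apply, Finset.sum_eq_single 0]
    · rw [hly 0, if_pos rfl]
    · intro m _ hm
      rw [hly m, if_neg hm, mul_zero]
    · intro h5
      exact absurd (Finset.mem_univ _) h5
  have hc : D.rho u l 0 0 * D.rho u y 0 0 ≠ 0 := by
    intro h
    apply h0
    rw [hxl 0, h, mul_zero]
  have hx0 : ∀ j, j ≠ 0 → D.rho u x j 0 = 0 := by
    intro j hj
    have h2 := hxl j
    rw [hp j hj] at h2
    exact (mul_eq_zero.1 h2.symm).resolve_right hc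
  obtain ⟨B, hB, h2⟩ := D.par u {x} isCompact_singleton
  exact ⟨B, hB, fun t ht => h2 x rfl hx0 t ht⟩

/-- `g k⁻¹` fixes the base hyperplane of the node `u` for some `k ∈ K`. -/
theorem exists_hyp (u : ι) (g : 𝔾) : ∃ k ∈ D.K, ∀ i, i ≠ 0 → D.rho u (g * k⁻¹) 0 i = 0 := by
  obtain ⟨k, hk, c, hc, h1⟩ := exists_row D u g
  refine ⟨k, hk, fun i hi => ?_⟩
  have h2 : D.rho u (g * k⁻¹) 0 i = c * (D.rho u k * D.rho u k⁻¹) 0 i := by
    rw [map_mul, Matrix.mul_apply, Matrix.mul_apply, Finset.mul_sum]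
    exact Finset.sum_congr rfl fun j _ => by rw [h1 j, mul_assoc]
  rw [h2, rho_mul_inv19, one_apply_ne (Ne.symm hi), mul_zero]

/-- `k⁻¹ g` fixes the base line of the node `u` for some `k ∈ K`. -/
theorem exists_lin (u : ι) (g : 𝔾) : ∃ k ∈ D.K, ∀ i, i ≠ 0 → D.rho u (k⁻¹ * g) i 0 = 0 := by
  obtain ⟨k, hk, c, hc, h1⟩ := exists_col D u g
  refine ⟨k, hk, fun i hi => ?_⟩
  have h2 : D.rho u (k⁻¹ * g) i 0 = c * (D.rho u k⁻¹ * D.rho u k) i 0 := by
    rw [map_mul, Matrix.mul_apply, Matrix.mul_apply, Finset.mul_sum]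
    exact Finset.sum_congr rfl fun j _ => by rw [h1 j]; ring
  rw [h2, rho_inv_mul19, one_apply_ne hi, mul_zero]

end GDs

end Pool.Agent.Helper19.FQ
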