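import Pool.Agent.Helper96.SA.Exp

/-!
# Project FQ (MP_0f6f3f_an): a matrix with `exp (-tS) Y exp (tS) → 1` and `exp (tS) Y exp (-tS)` bounded (`t ≥ 0`) is `1` (`S` symmetric)
-/

set_option autoImplicit false

open Matrix Filter Topology NormedSpace

namespace Pool.Agent.Helper19.FQ

open Pool.Agent.Helper96.SA

variable {N : ℕ}

/-- The spectral theorem. -/
theorem spec19 {H : Mat N} (hs : Hᵀ = H) : ∃ (O : Mat N) (d : Fin N → ℝ), Oᵀ * O = 1 ∧ O * Oᵀ = 1 ∧
    H = O * diagonal d * Oᵀ := by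
  have hH : H.IsHermitian := by
    unfold Matrix.IsHermitian
    rw [Matrix.conjTranspose_eq_transpose_of_trivial, hs]
  refine ⟨hH.eigenvectorUnitary, hH.eigenvalues, ?_, ?_, ?_⟩
  · have h := Unitary.coe_star_mul_self hH.eigenvectorUnitary
    rwa [Matrix.star_eq_conjTranspose, Matrix.conjTranspose_eq_transpose_of_trivial] at h
  · have h := Unitary.coe_mul_star_self hH.eigenvectorUnitary
    rwa [Unitary.coe_star, Matrix.star_eq_conjTranspose, Matrix.conjTranspose_eq_transpose_of_trivial] at h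
  · have h := hH.spectral_theorem
    rw [Unitary.conjStarAlgAut_apply, Matrix.star_eq_conjTranspose,
      Matrix.conjTranspose_eq_transpose_of_trivial] at h
    exact h

theorem smul_spec19 (O : Mat N) (d : Fin N → ℝ) (t : ℝ) :
    t • (O * diagonal d * Oᵀ) = O * diagonal (fun i => t * d i) * Oᵀ := by
  have e : diagonal (fun i => t * d i) = t • diagonal d := by
    rw [← Matrix.diagonal_smul]
    rfl
  rw [e, Matrix.mul_smul, Matrix.smul_mul]

theorem conj_diag19 (O : Mat N) (h1 : Oᵀ * O = 1) (h2 : O * Oᵀ = 1) (d : Fin N → ℝ) (Y : Mat N) (s : ℝ) (i j : Fin N) :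
    (Oᵀ * (exp (s • (O * diagonal d * Oᵀ)) * Y * exp (-(s • (O * diagonal d * Oᵀ)))) * O) i j = Real.exp ((d i - d j) * s) * (Oᵀ * Y * O) i j := by
  have e1 : -(s • (O * diagonal d * Oᵀ)) = O * diagonal (fun i => -s * d i) * Oᵀ := by
    rw [← neg_smul, smul_spec19]
  rw [e1, smul_spec19, exp_diag O h1 h2, exp_diag O h1 h2]
  have e2 : Oᵀ * (O * diagonal (fun i => Real.exp (s * d i)) * Oᵀ * Y * (O * diagonal (fun i => Real.exp (-s * d i)) * Oᵀ)) * O =
      diagonal (fun i => Real.exp (s * d i)) * (Oᵀ * Y * O) * diagonal (fun i => Real.exp (-s * d i)) := by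
    calc Oᵀ * (O * diagonal (fun i => Real.exp (s * d i)) * Oᵀ * Y * (O * diagonal (fun i => Real.exp (-s * d i)) * Oᵀ)) * O =
        (Oᵀ * O) * diagonal (fun i => Real.exp (s * d i)) * (Oᵀ * Y * O) * diagonal (fun i => Real.exp (-s * d i)) * (Oᵀ * O) := by
          simp only [Matrix.mul_assoc]
      _ = _ := by rw [h1, Matrix.one_mul, Matrix.mul_one]
  rw [e2, mul_diagonal, diagonal_mul, mul_right_comm, ← Real.exp_add]
  congr 2
  ring

/-- **Main lemma.** -/
theorem eq_one19 {S Y : Mat N} (hs : Sᵀ = S) (hY : Tendsto (fun t : ℝ => exp (-(t • S)) * Y * exp (t • S)) atTop (𝓝 1))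
    {B : Set (Mat N)} (hB : IsCompact B) (hY' : ∀ t : ℝ, 0 ≤ t → exp (t • S) * Y * exp (-(t • S)) ∈ B) : Y = 1 := by
  obtain ⟨O, d, h1, h2, rfl⟩ := spec19 hs
  have hcont : ∀ i j, Continuous fun M : Mat N => (Oᵀ * M * O) i j := fun i j =>
    ((continuous_const.matrix_mul continuous_id).matrix_mul continuous_const).matrix_elem i j
  -- the entries in the basis of eigenvectors
  have hlim : ∀ i j, Tendsto (fun t : ℝ => Real.exp ((d j - d i) * t) * (Oᵀ * Y * O) i j) atTop (𝓝 ((1 : Mat N) i j)) := by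
    intro i j
    have h3 := ((hcont i j).tendsto 1).comp hY
    rw [Matrix.mul_one, h1] at h3
    refine h3.congr fun t => ?_
    have h4 := conj_diag19 O h1 h2 d Y (-t) i j
    rw [neg_smul, neg_neg] at h4
    rw [Function.comp_apply, h4]
    congr 2
    ring
  have hbd : ∀ i j, ∃ R : ℝ, ∀ t : ℝ, 0 ≤ t → |Real.exp ((d i - d j) * t) * (Oᵀ * Y * O) i j| ≤ R := by
    intro i j
    obtain ⟨R, hR⟩ := (hB.image ((hcont i j).abs)).bddAbove
    refine ⟨R, fun t ht => ?_⟩
    have h3 : |(Oᵀ * (exp (t • (O * diagonal d * Oᵀ)) * Y * exp (-(t • (O * diagonal d * Oᵀ)))) * O) i j| ≤ R := hR ⟨_, hY' t ht, rfl⟩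
    rwa [conj_diag19 O h1 h2 d Y t i j] at h3
  have hZ : Oᵀ * Y * O = 1 := by
    ext i j
    by_cases hij : i = j
    · subst hij
      have h3 := hlim i i
      simp only [sub_self, zero_mul, Real.exp_zero, one_mul] at h3
      exact tendsto_nhds_unique tendsto_const_nhds h3
    · have h3 := hlim i j
      rw [one_apply_ne hij] at h3 ⊢
      rcases le_or_gt (d i) (d j) with h | h
      · have h4 : Tendsto (fun t : ℝ => |Real.exp ((d j - d i) * t) * (Oᵀ * Y * O) i j|) atTop (𝓝 0) := by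
          have := h3.abs
          rwa [abs_zero] at this
        have h5 : |(Oᵀ * Y * O) i j| ≤ 0 := by
          refine le_of_tendsto_of_tendsto (tendsto_const_nhds (x := |(Oᵀ * Y * O) i j|)) h4 ?_
          filter_upwards [eventually_ge_atTop (0 : ℝ)] with t ht
          rw [abs_mul, Real.abs_exp]
          have h6 : (1 : ℝ) ≤ Real.exp ((d j - d i) * t) := Real.one_le_exp (mul_nonneg (by linarith) ht)
          have h7 := abs_nonneg ((Oᵀ * Y * O) i j)
          nlinarith
        exact abs_eq_zero.1 (le_antisymm h5 (abs_nonneg _))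
      · obtain ⟨R, hR⟩ := hbd i j
        by_contra h0
        have h4 : Tendsto (fun t : ℝ => Real.exp ((d i - d j) * t) * |(Oᵀ * Y * O) i j|) atTop atTop := by
          refine Tendsto.atTop_mul_const (abs_pos.2 h0) ?_
          exact Real.tendsto_exp_atTop.comp (tendsto_id.const_mul_atTop (by linarith))
        obtain ⟨t, ht, ht'⟩ := ((h4.eventually (eventually_gt_atTop R)).and (eventually_ge_atTop (0 : ℝ))).exists
        have h5 := hR t ht'
        rw [abs_mul, Real.abs_exp] at h5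
        linarith
  calc Y = (O * Oᵀ) * Y * (O * Oᵀ) := by rw [h2, Matrix.one_mul, Matrix.mul_one]
    _ = O * (Oᵀ * Y * O) * Oᵀ := by simp only [Matrix.mul_assoc]
    _ = 1 := by rw [hZ, Matrix.mul_one, h2]

end Pool.Agent.Helper19.FQ
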