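import Pool.Agent.Helper19.FQ.IwaA
import Pool.Agent.Helper19.FQ.IwaM
import Pool.Agent.Helper77.FQ.Cow
import Pool.Agent.Helper78.BM.Phi
import Pool.Agent.Helper66.FR.XP7

/-!
# Project FQ (MP_0f6f3f_an): `G = U L K` for the maximal parabolic subgroups of the adjoint groups with group data

`decR`: `g = x l k`, `x` contracted by `exp (n W u)`, `l` commuting with `exp (t W u)`, `k ∈ K`. `decL`: the same with `exp (-n W u)`.
-/

set_option autoImplicit false

open Filter Topology Matrix NormedSpace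

namespace Pool.Agent.Helper19.FQ

open Pool.Agent.Helper96.SA Pool.Agent.Helper96.TO Pool.Agent.Helper66.FR
open Pool.Agent.Helper84.GDL (GD)
open Pool.Agent.Helper78.BM (Ctr)

variable {L : Type} [LieRing L] [LieAlgebra ℝ L] {N : ℕ} {r : ℕ} {θ : L ≃ₗ⁅ℝ⁆ L} {b : Module.Basis (Fin N) ℝ L} {A : Submodule ℝ L}
  {W : Fin r → A} {G : Subgroup (GL (Fin N) ℝ)} {D : GD G (Fin r)}

theorem eaA_single19 (W : Fin r → A) (u : Fin r) (t : ℝ) : Pool.Agent.Helper77.FQ.eaA W (Pi.single u t) = t • W u := by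
  unfold Pool.Agent.Helper77.FQ.eaA
  rw [Finset.sum_eq_single u]
  · rw [Pi.single_eq_same]
  · intro j _ hj
    rw [Pi.single_eq_of_ne hj, zero_smul]
  · intro h
    exact absurd (Finset.mem_univ _) h

theorem ea_coe19 (hG : IsAdj b G) (hea : ∀ c, D.ea c = Pool.Agent.Helper77.FQ.eaG hG W c) (u : Fin r) (t : ℝ) :
    (((D.ea (Pi.single u t) : G) : GL (Fin N) ℝ) : Mat N) = exp (t • TT_to b (W u : L)) := by
  rw [hea, Pool.Agent.Helper77.FQ.eaG_coe, ex_coe, eaA_single19, Submodule.coe_smul, map_smul]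

/-- An element whose conjugates are bounded in one direction and tend to `1` in the other one. -/
theorem gr_one19 (h : CartanBasis θ b) (hA : MaxFlat θ A) (hG : IsAdj b G) (hea : ∀ c, D.ea c = Pool.Agent.Helper77.FQ.eaG hG W c) (u : Fin r) (σ : ℝ)
    (hσ : σ = 1 ∨ σ = -1) (y : G)
    (hy : Tendsto (fun t : ℝ => D.ea (Pi.single u (-(σ * t))) * y * D.ea (Pi.single u (σ * t))) atTop (𝓝 1))
    {B : Set (G)} (hB : IsCompact B) (hy' : ∀ t : ℝ, 0 ≤ t → D.ea (Pi.single u (σ * t)) * y * D.ea (Pi.single u (-(σ * t))) ∈ B) : y = 1 := by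
  have hc : Continuous fun g : G => ((g : GL (Fin N) ℝ) : Mat N) := Units.continuous_val.comp continuous_subtype_val
  obtain ⟨S, hS⟩ : ∃ S : Mat N, S = σ • TT_to b (W u : L) := ⟨_, rfl⟩
  have hs : Sᵀ = S := by
    rw [hS, transpose_smul]
    congr 1
    exact (TT_symm_iff_to h _).2 (hA.neg _ (W u).2)
  have e : ∀ t : ℝ, (((D.ea (Pi.single u (σ * t)) : G) : GL (Fin N) ℝ) : Mat N) = exp (t • S) := by
    intro t
    rw [ea_coe19 hG hea, hS, smul_smul, mul_comm]
  have e' : ∀ t : ℝ, (((D.ea (Pi.single u (-(σ * t))) : G) : GL (Fin N) ℝ) : Mat N) = exp (-(t • S)) := by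
    intro t
    rw [ea_coe19 hG hea, hS, smul_smul, ← neg_smul, mul_comm]
  have key : ((y : GL (Fin N) ℝ) : Mat N) = 1 := by
    refine eq_one19 hs ?_ (hB.image hc) ?_
    · have h1 := (hc.tendsto 1).comp hy
      refine Tendsto.congr (fun t => ?_) h1
      rw [Function.comp_apply, Subgroup.coe_mul, Subgroup.coe_mul, Units.val_mul, Units.val_mul, e, e']
    · intro t ht
      refine ⟨_, hy' t ht, ?_⟩
      beta_reduce
      rw [Subgroup.coe_mul, Subgroup.coe_mul, Units.val_mul, Units.val_mul, e, e']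
  exact Subtype.ext (Units.ext key)

/-- `g = x l k`. -/
theorem decR (h : CartanBasis θ b) (hA : MaxFlat θ A) (hG : IsAdj b G) (hea : ∀ c, D.ea c = Pool.Agent.Helper77.FQ.eaG hG W c) (u : Fin r) (g : G) :
    ∃ x l k : G, k ∈ D.K ∧ g = x * l * k ∧
      Tendsto (fun t : ℝ => D.ea (Pi.single u t) * x * D.ea (Pi.single u (-t))) atTop (𝓝 1) ∧
      (∀ t : ℝ, l * D.ea (Pi.single u t) = D.ea (Pi.single u t) * l) := by
  obtain ⟨k, hk, h1⟩ := exists_hyp D u g
  obtain ⟨x, l, y, he, hx, hl, hy, B, hB, h2⟩ := cell_hyp D u (g * k⁻¹) h1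
  have hy1 : y = 1 := gr_one19 h hA hG hea u 1 (Or.inl rfl) y (by simpa only [one_mul] using hy) hB (by simpa only [one_mul] using h2)
  refine ⟨x, l, k, hk, ?_, hx, hl⟩
  rw [hy1, mul_one] at he
  rw [← he, inv_mul_cancel_right]

/-- `g = x l k`, opposite parabolic subgroup. -/
theorem decL (h : CartanBasis θ b) (hA : MaxFlat θ A) (hG : IsAdj b G) (hea : ∀ c, D.ea c = Pool.Agent.Helper77.FQ.eaG hG W c) (u : Fin r) (g : G) :
    ∃ x l k : G, k ∈ D.K ∧ g = x * l * k ∧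
      Tendsto (fun t : ℝ => D.ea (Pi.single u (-t)) * x * D.ea (Pi.single u t)) atTop (𝓝 1) ∧
      (∀ t : ℝ, l * D.ea (Pi.single u t) = D.ea (Pi.single u t) * l) := by
  obtain ⟨k, hk, h1⟩ := exists_lin D u g⁻¹
  obtain ⟨x, l, y, he, hx, hl, hy, B, hB, h2⟩ := cell_lin D u (k⁻¹ * g⁻¹) h1
  have hx1 : x = 1 := by
    refine gr_one19 h hA hG hea u (-1) (Or.inr rfl) x ?_ hB ?_
    · simpa only [neg_mul, one_mul, neg_neg] using hx
    · simpa only [neg_mul, one_mul, neg_neg] using h2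
  rw [hx1, one_mul] at he
  refine ⟨y⁻¹, l⁻¹, k⁻¹, D.K.inv_mem hk, ?_, ?_, ?_⟩
  · have h3 : g⁻¹ = k * (l * y) := by rw [← he, mul_inv_cancel_left]
    rw [← inv_inv g, h3]
    group
  · have h3 := hy.inv
    rw [inv_one] at h3
    refine h3.congr fun t => ?_
    have e1 : D.ea (Pi.single u (-t)) = (D.ea (Pi.single u t))⁻¹ := by rw [Pi.single_neg, D.ea_neg]
    rw [e1]
    group
  · intro t
    rw [inv_mul_eq_iff_eq_mul, ← mul_assoc, hl t, mul_inv_cancel_right]

end Pool.Agent.Helper19.FQ
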